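import Mathlib

set_option autoImplicit false

namespace Pool.Agent.H.MP_9f65ab_al

def TLe (τ σ : AddSubgroup ℚ) : Prop := ∃ c : ℚ, c ≠ 0 ∧ ∀ t ∈ τ, c * t ∈ σ

theorem TLe.trans {τ σ ρ : AddSubgroup ℚ} (h : TLe τ σ) (k : TLe σ ρ) : TLe τ ρ := by
  obtain ⟨c, hc, h⟩ := h
  obtain ⟨d, hd, k⟩ := k
  exact ⟨d * c, mul_ne_zero hd hc, fun t ht => by rw [mul_assoc]; exact k _ (h t ht)⟩

theorem TLe.of_le {τ σ : AddSubgroup ℚ} (h : τ ≤ σ) : TLe τ σ :=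
  ⟨1, one_ne_zero, fun t ht => by rw [one_mul]; exact h ht⟩

theorem TLe.inf {τ σ ρ : AddSubgroup ℚ} (h : TLe τ σ) (k : TLe τ ρ) : TLe τ (σ ⊓ ρ) := by
  obtain ⟨c, hc, h⟩ := h
  obtain ⟨d, hd, k⟩ := k
  refine ⟨c.num * d.num, mul_ne_zero (by exact_mod_cast Rat.num_ne_zero.2 hc)
    (by exact_mod_cast Rat.num_ne_zero.2 hd), fun t ht => ⟨?_, ?_⟩⟩
  · have e : (c.num : ℚ) * d.num * t = (c.den * d.num : ℤ) • (c * t) := by
      rw [← Rat.mul_den_eq_num c, zsmul_eq_mul]; push_cast; ring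
    rw [e]; exact zsmul_mem (h t ht) _
  · have e : (c.num : ℚ) * d.num * t = (d.den * c.num : ℤ) • (d * t) := by
      rw [← Rat.mul_den_eq_num d, zsmul_eq_mul]; push_cast; ring
    rw [e]; exact zsmul_mem (k t ht) _

variable {V : Type} [AddCommGroup V] [Module ℚ V]

def tp (G : AddSubgroup V) (x : V) : AddSubgroup ℚ where
  carrier := {c | c • x ∈ G}
  zero_mem' := by simp
  add_mem' := fun ha hb => by simpa [add_smul] using add_mem ha hb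
  neg_mem' := fun ha => by simpa [neg_smul] using ha

theorem tp_add (G : AddSubgroup V) (x y : V) : tp G x ⊓ tp G y ≤ tp G (x + y) :=
  fun c hc => by
    change c • (x + y) ∈ G
    rw [smul_add]; exact add_mem hc.1 hc.2

theorem tp_smul (G : AddSubgroup V) (x : V) (a : ℚ) : TLe (tp G x) (tp G (a • x)) := by
  by_cases ha : a = 0
  · exact TLe.of_le fun c _ => by
      change c • a • x ∈ G
      simp [ha]
  · refine ⟨a⁻¹, inv_ne_zero ha, fun t ht => ?_⟩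
    change (a⁻¹ * t) • a • x ∈ G
    rw [smul_smul, mul_right_comm, inv_mul_cancel₀ ha, one_mul]; exact ht

def Gt (G : AddSubgroup V) (τ : AddSubgroup ℚ) : AddSubgroup V where
  carrier := {x | x ∈ G ∧ TLe τ (tp G x)}
  zero_mem' := ⟨zero_mem _, TLe.of_le fun c _ => by
    change c • (0 : V) ∈ G
    simp⟩
  add_mem' := fun ha hb =>
    ⟨add_mem ha.1 hb.1, (ha.2.inf hb.2).trans (TLe.of_le (tp_add _ _ _))⟩
  neg_mem' := fun {x} ha => ⟨neg_mem ha.1, ha.2.trans (by simpa using tp_smul G x (-1))⟩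

def Gstar (G : AddSubgroup V) (τ : AddSubgroup ℚ) : AddSubgroup V :=
  ⨆ (σ : AddSubgroup ℚ) (_ : TLe τ σ ∧ ¬ TLe σ τ), Gt G σ

def Gsharp (G : AddSubgroup V) (τ : AddSubgroup ℚ) : AddSubgroup V where
  carrier := {x | x ∈ G ∧ ∃ n : ℕ, n ≠ 0 ∧ n • x ∈ Gstar G τ}
  zero_mem' := ⟨zero_mem _, 1, one_ne_zero, by simp⟩
  add_mem' := by
    rintro x y ⟨hx, m, hm, h1⟩ ⟨hy, n, hn, h2⟩
    refine ⟨add_mem hx hy, m * n, mul_ne_zero hm hn, ?_⟩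
    rw [smul_add, mul_comm m n, mul_smul, mul_comm n m, mul_smul]
    exact add_mem (nsmul_mem h1 _) (nsmul_mem h2 _)
  neg_mem' := by
    rintro x ⟨hx, m, hm, h1⟩
    exact ⟨neg_mem hx, m, hm, by simpa using h1⟩

def IsReg (G A : AddSubgroup V) : Prop :=
  ∃ C : AddSubgroup ℚ → AddSubgroup V,
    (∀ τ, τ ≠ ⊥ → C τ ⊓ Gsharp G τ = ⊥ ∧ C τ ⊔ Gsharp G τ = Gt G τ) ∧
    (∀ τ σ, TLe τ σ → TLe σ τ → C τ = C σ) ∧ A = ⨆ (τ : AddSubgroup ℚ) (_ : τ ≠ ⊥), C τ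

def Reg (G : AddSubgroup V) : AddSubgroup V := sInf {A | IsReg G A}

def IsButler (G : AddSubgroup V) : Prop :=
  ∃ (n : ℕ) (B : Fin n → AddSubgroup V), (∀ i, ∃ v : V, ∀ x ∈ B i, ∃ c : ℚ, x = c • v) ∧
    G = ⨆ i, B i

end Pool.Agent.H.MP_9f65ab_al
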