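import Pool.Agent.H.MP_9f65ab_al.Zl
import Pool.Agent.H.MP_9f65ab_al.Defs

set_option autoImplicit false

namespace Pool.Agent.H.MP_9f65ab_al

variable {V : Type} [AddCommGroup V] [Module ℚ V]

def TT (G : AddSubgroup V) (τ : AddSubgroup ℚ) : Submodule ℚ V where
  carrier := {x | TLe τ (tp G x)}
  zero_mem' := (Gt G τ).zero_mem.2
  add_mem' := fun ha hb => (TLe.inf ha hb).trans (TLe.of_le (tp_add _ _ _))
  smul_mem' := fun a x hx => TLe.trans hx (tp_smul G x a)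

def Sat (K : AddSubgroup V) : Submodule ℚ V where
  carrier := {x | ∃ n : ℕ, n ≠ 0 ∧ n • x ∈ K}
  zero_mem' := ⟨1, one_ne_zero, by simp⟩
  add_mem' := by
    rintro x y ⟨m, hm, h1⟩ ⟨n, hn, h2⟩
    refine ⟨m * n, mul_ne_zero hm hn, ?_⟩
    rw [smul_add, mul_comm m n, mul_smul, mul_comm n m, mul_smul]
    exact add_mem (nsmul_mem h1 _) (nsmul_mem h2 _)
  smul_mem' := by
    rintro a x ⟨m, hm, h1⟩
    refine ⟨m * a.den, mul_ne_zero hm a.den_nz, ?_⟩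
    have e : (m * a.den) • a • x = a.num • m • x := by
      rw [← Nat.cast_smul_eq_nsmul ℚ, ← Nat.cast_smul_eq_nsmul ℚ, ← Int.cast_smul_eq_zsmul ℚ,
        smul_smul, smul_smul, ← Rat.mul_den_eq_num a]
      congr 1; push_cast; ring
    rw [e]; exact zsmul_mem h1 _

theorem Gt_anti (G : AddSubgroup V) {τ σ : AddSubgroup ℚ} (h : TLe τ σ) : Gt G σ ≤ Gt G τ :=
  fun _ hx => ⟨hx.1, h.trans hx.2⟩

theorem Gstar_le (G : AddSubgroup V) (τ : AddSubgroup ℚ) : Gstar G τ ≤ Gt G τ :=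
  iSup₂_le fun _ h => Gt_anti G h.1

theorem Gsharp_le (G : AddSubgroup V) (τ : AddSubgroup ℚ) : Gsharp G τ ≤ Gt G τ := by
  rintro x ⟨hx, n, hn, h⟩
  refine ⟨hx, ?_⟩
  have h1 : (n : ℚ)⁻¹ • n • x ∈ TT G τ := (TT G τ).smul_mem _ (Gstar_le G τ h).2
  rwa [← Nat.cast_smul_eq_nsmul ℚ, inv_smul_smul₀ (by exact_mod_cast hn)] at h1

theorem Gsharp_congr (G : AddSubgroup V) {τ σ : AddSubgroup ℚ} (h : TLe τ σ) (k : TLe σ τ) :
    Gsharp G τ = Gsharp G σ := by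
  have e : Gstar G τ = Gstar G σ := le_antisymm
    (iSup₂_le fun ρ hρ => le_iSup₂_of_le ρ ⟨k.trans hρ.1, fun q => hρ.2 (q.trans k)⟩ le_rfl)
    (iSup₂_le fun ρ hρ => le_iSup₂_of_le ρ ⟨h.trans hρ.1, fun q => hρ.2 (q.trans h)⟩ le_rfl)
  ext x
  change _ ∧ _ ↔ _ ∧ _
  rw [e]

def ln (K : AddSubgroup ℚ) (v : V) : AddSubgroup V :=
  K.map (LinearMap.toSpanSingleton ℚ V v).toAddMonoidHom

theorem mem_ln {K : AddSubgroup ℚ} {v x : V} : x ∈ ln K v ↔ ∃ c ∈ K, c • v = x := Iff.rfl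

abbrev W := Fin 5 → ℚ

def SS : AddSubgroup W where
  carrier := {v | v 0 ∈ Zl {3, 5} ∧ v 1 ∈ Zl {3, 7} ∧ v 2 ∈ Zl {3, 11} ∧
    ∃ a ∈ Zl {17}, v 3 - a ∈ Zl {3} ∧ v 4 + a ∈ Zl {13}}
  zero_mem' := ⟨zero_mem _, zero_mem _, zero_mem _, 0, zero_mem _, by simp, by simp⟩
  add_mem' := by
    rintro v w ⟨h0, h1, h2, a, ha, h3, h4⟩ ⟨k0, k1, k2, b, hb, k3, k4⟩
    refine ⟨add_mem h0 k0, add_mem h1 k1, add_mem h2 k2, a + b, add_mem ha hb, ?_, ?_⟩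
    · convert add_mem h3 k3 using 1; simp; ring
    · convert add_mem h4 k4 using 1; simp; ring
  neg_mem' := by
    rintro v ⟨h0, h1, h2, a, ha, h3, h4⟩
    refine ⟨neg_mem h0, neg_mem h1, neg_mem h2, -a, neg_mem ha, ?_, ?_⟩
    · convert neg_mem h3 using 1; simp; ring
    · convert neg_mem h4 using 1; simp; ring

def mk5 (a b c d e : ℚ) : W := ![a, b, c, d, e]
@[simp] theorem mk0 (a b c d e : ℚ) : mk5 a b c d e 0 = a := rfl
@[simp] theorem mk1 (a b c d e : ℚ) : mk5 a b c d e 1 = b := rfl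
@[simp] theorem mk2 (a b c d e : ℚ) : mk5 a b c d e 2 = c := rfl
@[simp] theorem mk3 (a b c d e : ℚ) : mk5 a b c d e 3 = d := rfl
@[simp] theorem mk4 (a b c d e : ℚ) : mk5 a b c d e 4 = e := rfl

theorem ext5 {v w : W} (h0 : v 0 = w 0) (h1 : v 1 = w 1) (h2 : v 2 = w 2) (h3 : v 3 = w 3)
    (h4 : v 4 = w 4) : v = w := by
  ext i; fin_cases i <;> assumption

def e0 : W := mk5 1 0 0 0 0
def e1 : W := mk5 0 1 0 0 0
def e2 : W := mk5 0 0 1 0 0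
def e3 : W := mk5 0 0 0 1 0
def e4 : W := mk5 0 0 0 0 1
def e5 : W := mk5 0 0 0 1 (-1)
def xx : W := mk5 (1 / 4) (1 / 4) 0 (1 / 2) 0
def ss : W := mk5 (1 / 2) 0 (1 / 2) 0 0
def yy : W := mk5 (1 / 2) (1 / 2) 0 0 0

def GG : AddSubgroup W := SS ⊔ ln (Zl {3}) xx ⊔ ln (Zl {3}) ss
def RR : AddSubgroup W := SS ⊔ ln (Zl {3}) yy

theorem l0 : ln (Zl {3, 5}) e0 ≤ SS := by
  rintro _ ⟨c, hc, rfl⟩
  exact ⟨by simpa [e0] using hc, by simp [e0], by simp [e0], 0, by simp, by simp [e0], by simp [e0]⟩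
theorem l1 : ln (Zl {3, 7}) e1 ≤ SS := by
  rintro _ ⟨c, hc, rfl⟩
  exact ⟨by simp [e1], by simpa [e1] using hc, by simp [e1], 0, by simp, by simp [e1], by simp [e1]⟩
theorem l2 : ln (Zl {3, 11}) e2 ≤ SS := by
  rintro _ ⟨c, hc, rfl⟩
  exact ⟨by simp [e2], by simp [e2], by simpa [e2] using hc, 0, by simp, by simp [e2], by simp [e2]⟩
theorem l3 : ln (Zl {3}) e3 ≤ SS := by
  rintro _ ⟨c, hc, rfl⟩
  exact ⟨by simp [e3], by simp [e3], by simp [e3], 0, by simp, by simpa [e3] using hc, by simp [e3]⟩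
theorem l4 : ln (Zl {13}) e4 ≤ SS := by
  rintro _ ⟨c, hc, rfl⟩
  exact ⟨by simp [e4], by simp [e4], by simp [e4], 0, by simp, by simp [e4], by simpa [e4] using hc⟩
theorem l5 : ln (Zl {17}) e5 ≤ SS := by
  rintro _ ⟨c, hc, rfl⟩
  exact ⟨by simp [e5], by simp [e5], by simp [e5], c, hc, by simp [e5], by simp [e5]⟩

theorem SS_le {A : AddSubgroup W} (h0 : ln (Zl {3, 5}) e0 ≤ A) (h1 : ln (Zl {3, 7}) e1 ≤ A)
    (h2 : ln (Zl {3, 11}) e2 ≤ A) (h3 : ln (Zl {3}) e3 ≤ A) (h4 : ln (Zl {13}) e4 ≤ A)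
    (h5 : ln (Zl {17}) e5 ≤ A) : SS ≤ A := by
  rintro v ⟨k0, k1, k2, a, ha, k3, k4⟩
  have e : v = v 0 • e0 + v 1 • e1 + v 2 • e2 + (v 3 - a) • e3 + (v 4 + a) • e4 + a • e5 := by
    apply ext5 <;> simp [e0, e1, e2, e3, e4, e5]
  rw [e]
  exact add_mem (add_mem (add_mem (add_mem (add_mem (h0 ⟨_, k0, rfl⟩) (h1 ⟨_, k1, rfl⟩))
    (h2 ⟨_, k2, rfl⟩)) (h3 ⟨_, k3, rfl⟩)) (h4 ⟨_, k4, rfl⟩)) (h5 ⟨_, ha, rfl⟩)

theorem mem_GG {v : W} (h : v ∈ GG) : ∃ a ∈ Zl {3}, ∃ b ∈ Zl {3}, ∃ u ∈ SS,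
    v = u + a • xx + b • ss := by
  obtain ⟨y, hy, _, ⟨b, hb, rfl⟩, rfl⟩ := AddSubgroup.mem_sup.1 h
  obtain ⟨u, hu, _, ⟨a, ha, rfl⟩, rfl⟩ := AddSubgroup.mem_sup.1 hy
  exact ⟨a, ha, b, hb, u, hu, rfl⟩

theorem zm {L M : Set ℕ} {a : ℚ} (h : L ⊆ M) (ha : a ∈ Zl L) : a ∈ Zl M := Zl_mono h ha

theorem hf {a : ℚ} (h1 : a ∈ Zl {3}) (h2 : a / 2 ∈ Zl {2}ᶜ) : a / 2 ∈ Zl {3} :=
  Zl_half (by convert h1 using 1; ring) h2

theorem xx4 {a : ℚ} (h : a ∈ Zl {3}) : (4 * a) • xx ∈ SS :=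
  ⟨by convert zm (M := {3, 5}) (by grind) h using 1; simp [xx]; ring,
    by convert zm (M := {3, 7}) (by grind) h using 1; simp [xx]; ring,
    by simp [xx], 0, by simp, by convert add_mem h h using 1; simp [xx]; ring, by simp [xx]⟩

theorem ss2 {a : ℚ} (h : a ∈ Zl {3}) : (2 * a) • ss ∈ SS :=
  ⟨by convert zm (M := {3, 5}) (by grind) h using 1; simp [ss]; ring, by simp [ss],
    by convert zm (M := {3, 11}) (by grind) h using 1; simp [ss]; ring, 0, by simp, by simp [ss], by simp [ss]⟩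

theorem four_mem {v : W} (h : v ∈ GG) : (4 : ℚ) • v ∈ SS := by
  obtain ⟨a, ha, b, hb, u, hu, rfl⟩ := mem_GG h
  have e : (4 : ℚ) • (u + a • xx + b • ss) = 4 • u + (4 * a) • xx + (2 * (b + b)) • ss := by
    module
  rw [e]
  exact add_mem (add_mem (nsmul_mem hu _) (xx4 ha)) (ss2 (add_mem hb hb))

theorem pure2 {v : W} (h : v ∈ GG) (h0 : v 0 ∈ Zl {2}ᶜ) (h1 : v 1 ∈ Zl {2}ᶜ ∨ v 2 ∈ Zl {2}ᶜ) :
    v ∈ SS := by
  obtain ⟨a, ha, b, hb, u, hu, rfl⟩ := mem_GG h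
  have k0 : a / 4 + b / 2 ∈ Zl {2}ᶜ := by
    convert sub_mem h0 (zm (by grind) hu.1) using 1; simp [xx, ss]; ring
  have k : a / 4 ∈ Zl {2}ᶜ ∧ b / 2 ∈ Zl {2}ᶜ := by
    rcases h1 with h1 | h1
    · have k1 : a / 4 ∈ Zl {2}ᶜ := by
        convert sub_mem h1 (zm (by grind) hu.2.1) using 1; simp [xx, ss]; ring
      exact ⟨k1, by simpa using sub_mem k0 k1⟩
    · have k1 : b / 2 ∈ Zl {2}ᶜ := by
        convert sub_mem h1 (zm (by grind) hu.2.2.1) using 1; simp [xx, ss]; ring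
      exact ⟨by simpa using sub_mem k0 k1, k1⟩
  have k2 : a / 2 ∈ Zl {3} := hf ha (by convert add_mem k.1 k.1 using 1; ring)
  have k3 : a / 2 / 2 ∈ Zl {3} := hf k2 (by convert k.1 using 1; ring)
  have e1 : a • xx = (4 * (a / 2 / 2)) • xx := by congr 1; ring
  have e2 : b • ss = (2 * (b / 2)) • ss := by congr 1; ring
  rw [e1, e2]
  exact add_mem (add_mem hu (xx4 k3)) (ss2 (hf hb k.2))

theorem pure2' {v : W} (h : v ∈ GG) (h1 : v 1 = 0) (h2 : v 2 = 0) : v ∈ SS := by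
  obtain ⟨a, ha, b, hb, u, hu, rfl⟩ := mem_GG h
  have k1 : a / 4 ∈ Zl {2}ᶜ := by
    have : a / 4 = -u 1 := by simp [xx, ss] at h1; linarith
    rw [this]; exact neg_mem (zm (by grind) hu.2.1)
  have k4 : b / 2 ∈ Zl {2}ᶜ := by
    have : b / 2 = -u 2 := by simp [xx, ss] at h2; linarith
    rw [this]; exact neg_mem (zm (by grind) hu.2.2.1)
  refine pure2 h ?_ (Or.inl (by rw [h1]; exact zero_mem _))
  convert add_mem (add_mem (zm (M := {2}ᶜ) (by grind) hu.1) k1) k4 using 1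
  simp [xx, ss]; ring

section
variable {H : AddSubgroup W} (hG : H ≤ GG) (hS : SS ≤ H)
include hG

theorem up {τ : AddSubgroup ℚ} {x : W} (hx : x ∈ TT H τ) (f : W →ₗ[ℚ] ℚ) (L : Set ℕ)
    (hf : ∀ v ∈ SS, f v ∈ Zl L) (h : f x ≠ 0) : TLe τ (Zl L) := by
  obtain ⟨c, hc, h1⟩ := hx
  refine ⟨4 * c * f x, by positivity, fun t ht => ?_⟩
  convert hf _ (four_mem (hG (h1 t ht))) using 1
  simp; ring

theorem up0 {τ : AddSubgroup ℚ} {x : W} (hx : x ∈ TT H τ) (h : x 0 ≠ 0) : TLe τ (Zl {3, 5}) :=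
  up hG hx (LinearMap.proj 0) _ (fun _ hv => hv.1) h
theorem up1 {τ : AddSubgroup ℚ} {x : W} (hx : x ∈ TT H τ) (h : x 1 ≠ 0) : TLe τ (Zl {3, 7}) :=
  up hG hx (LinearMap.proj 1) _ (fun _ hv => hv.2.1) h
theorem up2 {τ : AddSubgroup ℚ} {x : W} (hx : x ∈ TT H τ) (h : x 2 ≠ 0) : TLe τ (Zl {3, 11}) :=
  up hG hx (LinearMap.proj 2) _ (fun _ hv => hv.2.2.1) h
theorem up3 {τ : AddSubgroup ℚ} {x : W} (hx : x ∈ TT H τ) (h : x 3 ≠ 0) : TLe τ (Zl {3, 17}) :=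
  up hG hx (LinearMap.proj 3) _ (fun _ ⟨_, _, _, a, ha, h3, _⟩ => by
    simpa using add_mem (zm (M := {3, 17}) (by grind) h3) (zm (by grind) ha)) h
theorem up4 {τ : AddSubgroup ℚ} {x : W} (hx : x ∈ TT H τ) (h : x 4 ≠ 0) : TLe τ (Zl {13, 17}) :=
  up hG hx (LinearMap.proj 4) _ (fun _ ⟨_, _, _, a, ha, _, h4⟩ => by
    simpa using sub_mem (zm (M := {13, 17}) (by grind) h4) (zm (by grind) ha)) h
theorem up5 {τ : AddSubgroup ℚ} {x : W} (hx : x ∈ TT H τ) (h : x 3 + x 4 ≠ 0) :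
    TLe τ (Zl {3, 13}) :=
  up hG hx ((LinearMap.proj 3 : W →ₗ[ℚ] ℚ) + (LinearMap.proj 4 : W →ₗ[ℚ] ℚ)) _ (fun _ ⟨_, _, _, a, _, h3, h4⟩ => by
    simpa using add_mem (zm (M := {3, 13}) (by grind) h3) (zm (by grind) h4)) h

omit hG in
theorem mt2 {τ : AddSubgroup ℚ} {L M N : Set ℕ} (hh : L ∩ M ⊆ N) (h : TLe τ (Zl L))
    (k : TLe τ (Zl M)) : TLe τ (Zl N) :=
  (h.inf k).trans (TLe.of_le ((Zl_inf L M).trans (Zl_mono hh)))

omit hG in
theorem nle {L M : Set ℕ} (l : ℕ) (hl : l.Prime) (h : l ∈ L) (k : l ∉ M) : ¬ TLe (Zl L) (Zl M) :=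
  fun ⟨c, hc, h1⟩ => not_scale hl h c hc fun t ht =>
    Zl_mono (M := {l}ᶜ) (fun x hx e => k (Set.mem_singleton_iff.1 e ▸ hx)) (h1 t ht)

theorem lines {τ : AddSubgroup ℚ} (h : ¬ TLe τ (Zl {3})) :
    (TLe τ (Zl {3, 5}) ∧ ∀ x ∈ TT H τ, x = x 0 • e0) ∨
    (TLe τ (Zl {3, 7}) ∧ ∀ x ∈ TT H τ, x = x 1 • e1) ∨
    (TLe τ (Zl {3, 11}) ∧ ∀ x ∈ TT H τ, x = x 2 • e2) ∨
    (∀ x ∈ TT H τ, x = x 4 • e4) ∨ (∀ x ∈ TT H τ, x = x 3 • e5) := by
  by_cases h0 : TLe τ (Zl {3, 5})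
  · refine Or.inl ⟨h0, fun x hx => ?_⟩
    have a1 : x 1 = 0 := by_contra fun k => h (mt2 (by grind) h0 (up1 hG hx k))
    have a2 : x 2 = 0 := by_contra fun k => h (mt2 (by grind) h0 (up2 hG hx k))
    have a3 : x 3 = 0 := by_contra fun k => h (mt2 (by grind) h0 (up3 hG hx k))
    have a4 : x 4 = 0 := by_contra fun k => h (mt2 (by grind) h0 (up4 hG hx k))
    apply ext5 <;> simp [e0, a1, a2, a3, a4]
  by_cases h1 : TLe τ (Zl {3, 7})
  · refine Or.inr (Or.inl ⟨h1, fun x hx => ?_⟩)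
    have a0 : x 0 = 0 := by_contra fun k => h0 (up0 hG hx k)
    have a2 : x 2 = 0 := by_contra fun k => h (mt2 (by grind) h1 (up2 hG hx k))
    have a3 : x 3 = 0 := by_contra fun k => h (mt2 (by grind) h1 (up3 hG hx k))
    have a4 : x 4 = 0 := by_contra fun k => h (mt2 (by grind) h1 (up4 hG hx k))
    apply ext5 <;> simp [e1, a0, a2, a3, a4]
  by_cases h2 : TLe τ (Zl {3, 11})
  · refine Or.inr (Or.inr (Or.inl ⟨h2, fun x hx => ?_⟩))
    have a0 : x 0 = 0 := by_contra fun k => h0 (up0 hG hx k)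
    have a1 : x 1 = 0 := by_contra fun k => h1 (up1 hG hx k)
    have a3 : x 3 = 0 := by_contra fun k => h (mt2 (by grind) h2 (up3 hG hx k))
    have a4 : x 4 = 0 := by_contra fun k => h (mt2 (by grind) h2 (up4 hG hx k))
    apply ext5 <;> simp [e2, a0, a1, a3, a4]
  by_cases h3 : TLe τ (Zl {3, 17})
  · refine Or.inr (Or.inr (Or.inr (Or.inr fun x hx => ?_)))
    have a0 : x 0 = 0 := by_contra fun k => h0 (up0 hG hx k)
    have a1 : x 1 = 0 := by_contra fun k => h1 (up1 hG hx k)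
    have a2 : x 2 = 0 := by_contra fun k => h2 (up2 hG hx k)
    have a5 : x 3 + x 4 = 0 := by_contra fun k => h (mt2 (by grind) h3 (up5 hG hx k))
    have a4 : x 4 = -x 3 := by linarith
    apply ext5 <;> simp [e5, a0, a1, a2, a4]
  · refine Or.inr (Or.inr (Or.inr (Or.inl fun x hx => ?_)))
    have a0 : x 0 = 0 := by_contra fun k => h0 (up0 hG hx k)
    have a1 : x 1 = 0 := by_contra fun k => h1 (up1 hG hx k)
    have a2 : x 2 = 0 := by_contra fun k => h2 (up2 hG hx k)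
    have a3 : x 3 = 0 := by_contra fun k => h3 (up3 hG hx k)
    apply ext5 <;> simp [e4, a0, a1, a2, a3]

omit hG in
theorem tle_tp {K : AddSubgroup ℚ} {v : W} (h : ln K v ≤ H) : TLe K (tp H v) :=
  TLe.of_le fun c hc => h ⟨c, hc, rfl⟩

omit hG in
include hS in
theorem star_mem {τ : AddSubgroup ℚ} {L : Set ℕ} {v : W} (h : ln (Zl L) v ≤ SS)
    (h1 : TLe τ (Zl L)) (h2 : ¬ TLe (Zl L) τ) : v ∈ Sat (Gstar H τ) :=
  ⟨1, one_ne_zero, by
    rw [one_smul]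
    refine (le_iSup₂_of_le (Zl L) ⟨h1, h2⟩ le_rfl : Gt H (Zl L) ≤ Gstar H τ) ?_
    exact ⟨hS (h ⟨1, Zl_one L, one_smul ℚ v⟩), tle_tp (h.trans hS)⟩⟩

omit hG in
include hS in
theorem low3 {τ : AddSubgroup ℚ} (h : TLe τ (Zl {3})) {x : W} (h3 : x 3 = 0) (h4 : x 4 = 0) :
    x ∈ Sat (Gstar H τ) := by
  have e : x = x 0 • e0 + x 1 • e1 + x 2 • e2 := by apply ext5 <;> simp [e0, e1, e2, h3, h4]
  rw [e]
  refine add_mem (add_mem (Submodule.smul_mem _ _ (star_mem hS l0 (mt2 (by grind) h h) fun k => ?_))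
    (Submodule.smul_mem _ _ (star_mem hS l1 (mt2 (by grind) h h) fun k => ?_)))
    (Submodule.smul_mem _ _ (star_mem hS l2 (mt2 (by grind) h h) fun k => ?_))
  · exact nle 5 (by norm_num) (by simp) (by simp) (k.trans h)
  · exact nle 7 (by norm_num) (by simp) (by simp) (k.trans h)
  · exact nle 11 (by norm_num) (by simp) (by simp) (k.trans h)

omit hG in
include hS in
theorem low0 {τ : AddSubgroup ℚ} (h : TLe τ (Zl {3})) (h' : TLe τ (Zl {3}ᶜ)) :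
    Gsharp H τ = Gt H τ := by
  refine le_antisymm (Gsharp_le _ _) fun x hx => ⟨hx.1, ?_⟩
  have e : x = (x - (x 3 + x 4) • e4 - x 3 • e5) + (x 3 + x 4) • e4 + x 3 • e5 := by abel
  change x ∈ Sat (Gstar H τ)
  rw [e]
  refine add_mem (add_mem (low3 hS h (by simp [e4, e5]) (by simp [e4, e5]))
    (Submodule.smul_mem _ _ (star_mem hS l4 (mt2 (by grind) h h') fun k => ?_)))
    (Submodule.smul_mem _ _ (star_mem hS l5 (mt2 (by grind) h h') fun k => ?_))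
  · exact nle 13 (by norm_num) (by simp) (by simp) (k.trans h)
  · exact nle 17 (by norm_num) (by simp) (by simp) (k.trans h)

include hS in
theorem mid {τ : AddSubgroup ℚ} (h : TLe τ (Zl {3})) (h' : TLe (Zl {3}) τ) (x : W) :
    (x ∈ Gt H τ ↔ x ∈ H ∧ x 4 = 0) ∧ (x ∈ Gsharp H τ ↔ x ∈ H ∧ x 3 = 0 ∧ x 4 = 0) := by
  have a4 : ∀ σ, TLe τ σ → ∀ y ∈ TT H σ, y 4 = 0 := fun σ hσ y hy => by_contra fun k =>
    nle 3 (by norm_num) (by simp) (by simp) ((h'.trans hσ).trans (up4 hG hy k))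
  refine ⟨⟨fun hx => ⟨hx.1, a4 τ (TLe.of_le le_rfl) x hx.2⟩, fun hx => ⟨hx.1, ?_⟩⟩,
    ⟨fun hx => ⟨hx.1, ?_⟩, fun hx => ⟨hx.1, low3 hS h hx.2.1 hx.2.2⟩⟩⟩
  · have e : x = x 0 • e0 + x 1 • e1 + x 2 • e2 + x 3 • e3 := by
      apply ext5 <;> simp [e0, e1, e2, e3, hx.2]
    change x ∈ TT H τ
    rw [e]
    exact add_mem (add_mem (add_mem
      (Submodule.smul_mem _ _ ((mt2 (by grind) h h).trans (tle_tp (l0.trans hS))))
      (Submodule.smul_mem _ _ ((mt2 (by grind) h h).trans (tle_tp (l1.trans hS)))))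
      (Submodule.smul_mem _ _ ((mt2 (by grind) h h).trans (tle_tp (l2.trans hS)))))
      (Submodule.smul_mem _ _ (h.trans (tle_tp (l3.trans hS))))
  · obtain ⟨n, hn, h1⟩ := hx.2
    have hle : Gstar H τ ≤ (LinearMap.ker (LinearMap.proj (R := ℚ) (φ := fun _ => ℚ) 3) ⊓
        LinearMap.ker (LinearMap.proj (R := ℚ) (φ := fun _ => ℚ) 4)).toAddSubgroup := by
      refine iSup₂_le fun σ hσ y hy => ⟨?_, a4 σ hσ.1 y hy.2⟩
      by_contra k
      have k4 := a4 σ hσ.1 y hy.2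
      have k3 : y 3 ≠ 0 := k
      exact hσ.2 ((mt2 (by grind) (up3 hG hy.2 k3) (up5 hG hy.2 (by rwa [k4, add_zero]))).trans h')
    have h2 : (n • x) 3 = 0 ∧ (n • x) 4 = 0 := hle h1
    simpa [hn] using h2

theorem rank1 {τ : AddSubgroup ℚ} (h : ¬ TLe τ (Zl {3})) :
    Gt H τ ≤ SS ∧ (Gsharp H τ = ⊥ ∨ Gsharp H τ = Gt H τ) := by
  have key : ∀ (v : W) (i : Fin 5), (∀ x ∈ TT H τ, x = x i • v) →
      Gsharp H τ = ⊥ ∨ Gsharp H τ = Gt H τ := by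
    intro v i hv
    by_cases h0 : Gsharp H τ = ⊥
    · exact Or.inl h0
    refine Or.inr (le_antisymm (Gsharp_le _ _) fun x hx => ⟨hx.1, ?_⟩)
    obtain ⟨⟨y, hy⟩, hy0⟩ := AddSubgroup.ne_bot_iff_exists_ne_zero.1 h0
    have e1 := hv y (Gsharp_le _ _ hy).2
    have h1 : y i ≠ 0 := fun k => hy0 (Subtype.ext (by rw [k, zero_smul] at e1; exact e1))
    have e2 : x = (x i / y i) • y := by
      conv_rhs => rw [e1, smul_smul]
      rw [← e1, div_mul_cancel₀ _ h1]; exact hv x hx.2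
    change x ∈ Sat (Gstar H τ)
    rw [e2]; exact Submodule.smul_mem _ _ hy.2
  rcases lines hG h with ⟨_, k⟩ | ⟨_, k⟩ | ⟨_, k⟩ | k | k
  · refine ⟨fun x hx => pure2' (hG hx.1) ?_ ?_, key _ _ k⟩ <;> rw [k x hx.2] <;> simp [e0]
  · refine ⟨fun x hx => pure2 (hG hx.1) ?_ (Or.inr ?_), key _ _ k⟩ <;> rw [k x hx.2] <;> simp [e1]
  · refine ⟨fun x hx => pure2 (hG hx.1) ?_ (Or.inl ?_), key _ _ k⟩ <;> rw [k x hx.2] <;> simp [e2]
  · refine ⟨fun x hx => pure2' (hG hx.1) ?_ ?_, key _ _ k⟩ <;> rw [k x hx.2] <;> simp [e4]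
  · refine ⟨fun x hx => pure2' (hG hx.1) ?_ ?_, key _ _ k⟩ <;> rw [k x hx.2] <;> simp [e5]

include hS in
theorem reg_exists (w : W) (hw : ln (Zl {3}) w ≤ H) (h3 : w 3 ≠ 0) (h4 : w 4 = 0)
    (hq : ∀ v ∈ H, v 4 = 0 → v 3 / w 3 ∈ Zl {3}) :
    ∃ A, IsReg H A ∧ A ≤ SS ⊔ ln (Zl {3}) w := by
  classical
  let C : AddSubgroup ℚ → AddSubgroup W := fun τ =>
    if TLe τ (Zl {3}) ∧ TLe (Zl {3}) τ then ln (Zl {3}) w
    else if Gsharp H τ = Gt H τ then ⊥ else Gt H τ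
  have hcase : ∀ τ, τ ≠ ⊥ → ¬ (TLe τ (Zl {3}) ∧ TLe (Zl {3}) τ) → ¬ Gsharp H τ = Gt H τ →
      ¬ TLe τ (Zl {3}) := by
    intro τ hτ h1 h2 h
    obtain ⟨c, hc, hc'⟩ := h
    refine h1 ⟨⟨c, hc, hc'⟩, scale_three τ hτ c hc hc' fun d hd k => h2 ?_⟩
    exact low0 hS ⟨c, hc, hc'⟩ ⟨d, hd, k⟩
  refine ⟨_, ⟨C, fun τ hτ => ?_, fun τ σ h k => ?_, rfl⟩, iSup₂_le fun τ hτ => ?_⟩
  · simp only [C]
    split_ifs with h1 h2
    · have hm := mid hG hS h1.1 h1.2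
      refine ⟨eq_bot_iff.2 ?_, le_antisymm (sup_le ?_ (Gsharp_le _ _)) fun v hv => ?_⟩
      · rintro _ ⟨⟨c, _, rfl⟩, hx⟩
        have := ((hm _).2.1 hx).2.1
        have hc : c = 0 := by simpa [h3] using this
        simp [hc]
      · rintro _ ⟨c, hc, rfl⟩
        exact (hm _).1.2 ⟨hw ⟨c, hc, rfl⟩, by simp [h4]⟩
      · obtain ⟨hv1, hv4⟩ := (hm v).1.1 hv
        have hc := hq v hv1 hv4
        refine AddSubgroup.mem_sup.2 ⟨(v 3 / w 3) • w, ⟨_, hc, rfl⟩, v - (v 3 / w 3) • w,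
          (hm _).2.2 ⟨sub_mem hv1 (hw ⟨_, hc, rfl⟩), by simp [h3], by simp [h4, hv4]⟩, by abel⟩
    · simp [h2]
    · have := ((rank1 hG (hcase τ hτ h1 h2)).2).resolve_right h2
      simp [this]
  · have e1 : Gt H τ = Gt H σ := le_antisymm (Gt_anti _ k) (Gt_anti _ h)
    have e2 : (TLe τ (Zl {3}) ∧ TLe (Zl {3}) τ) ↔ (TLe σ (Zl {3}) ∧ TLe (Zl {3}) σ) :=
      ⟨fun q => ⟨k.trans q.1, q.2.trans h⟩, fun q => ⟨h.trans q.1, q.2.trans k⟩⟩
    simp only [C, e1, e2, Gsharp_congr H h k]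
  · simp only [C]
    split_ifs with h1 h2
    · exact le_sup_right
    · exact bot_le
    · exact (rank1 hG (hcase τ hτ h1 h2)).1.trans le_sup_left

end

theorem SS_GG : SS ≤ GG := le_sup_left.trans le_sup_left

theorem Zl_ne (L : Set ℕ) : Zl L ≠ ⊥ := fun h => by
  have := Zl_one L
  rw [h] at this
  exact one_ne_zero (AddSubgroup.mem_bot.1 this)

theorem line_le {A : AddSubgroup W} (hA : IsReg GG A) {L : Set ℕ} {v : W}
    (h : ln (Zl L) v ≤ SS) (hm : ∀ σ, TLe (Zl L) σ → ∀ x ∈ TT GG σ, x ≠ 0 → TLe σ (Zl L)) :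
    ln (Zl L) v ≤ A := by
  obtain ⟨C, h1, _, rfl⟩ := hA
  have e1 : Gstar GG (Zl L) = ⊥ := eq_bot_iff.2 (iSup₂_le fun σ hσ x hx =>
    by_contra fun k => hσ.2 (hm σ hσ.1 x hx.2 k))
  have e2 : Gsharp GG (Zl L) = ⊥ := by
    refine eq_bot_iff.2 fun x ⟨_, n, hn, hx⟩ => ?_
    rw [e1, AddSubgroup.mem_bot, ← Nat.cast_smul_eq_nsmul ℚ] at hx
    exact (smul_eq_zero.1 hx).resolve_left (by exact_mod_cast hn)
  have e3 := (h1 _ (Zl_ne L)).2
  rw [e2, sup_bot_eq] at e3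
  refine le_iSup₂_of_le (Zl L) (Zl_ne L) ?_
  rw [e3]
  rintro _ ⟨c, hc, rfl⟩
  exact ⟨SS_GG (h ⟨c, hc, rfl⟩), (TT GG (Zl L)).smul_mem c (tle_tp (h.trans SS_GG))⟩

theorem nz5 {x : W} (h : x ≠ 0) : x 0 ≠ 0 ∨ x 1 ≠ 0 ∨ x 2 ≠ 0 ∨ x 3 ≠ 0 ∨ x 4 ≠ 0 := by
  by_contra k
  push Not at k
  exact h (ext5 k.1 k.2.1 k.2.2.1 k.2.2.2.1 k.2.2.2.2)

theorem RR_le {A : AddSubgroup W} (hA : IsReg GG A) : RR ≤ A := by
  have h0 : ln (Zl {3, 5}) e0 ≤ A := line_le hA l0 fun σ hσ x hx h => by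
    rcases nz5 h with k | k | k | k | k
    · exact up0 le_rfl hx k
    · exact absurd (hσ.trans (up1 le_rfl hx k)) (nle 5 (by norm_num) (by simp) (by simp))
    · exact absurd (hσ.trans (up2 le_rfl hx k)) (nle 5 (by norm_num) (by simp) (by simp))
    · exact absurd (hσ.trans (up3 le_rfl hx k)) (nle 5 (by norm_num) (by simp) (by simp))
    · exact absurd (hσ.trans (up4 le_rfl hx k)) (nle 5 (by norm_num) (by simp) (by simp))
  have h1 : ln (Zl {3, 7}) e1 ≤ A := line_le hA l1 fun σ hσ x hx h => by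
    rcases nz5 h with k | k | k | k | k
    · exact absurd (hσ.trans (up0 le_rfl hx k)) (nle 7 (by norm_num) (by simp) (by simp))
    · exact up1 le_rfl hx k
    · exact absurd (hσ.trans (up2 le_rfl hx k)) (nle 7 (by norm_num) (by simp) (by simp))
    · exact absurd (hσ.trans (up3 le_rfl hx k)) (nle 7 (by norm_num) (by simp) (by simp))
    · exact absurd (hσ.trans (up4 le_rfl hx k)) (nle 7 (by norm_num) (by simp) (by simp))
  have h2 : ln (Zl {3, 11}) e2 ≤ A := line_le hA l2 fun σ hσ x hx h => by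
    rcases nz5 h with k | k | k | k | k
    · exact absurd (hσ.trans (up0 le_rfl hx k)) (nle 11 (by norm_num) (by simp) (by simp))
    · exact absurd (hσ.trans (up1 le_rfl hx k)) (nle 11 (by norm_num) (by simp) (by simp))
    · exact up2 le_rfl hx k
    · exact absurd (hσ.trans (up3 le_rfl hx k)) (nle 11 (by norm_num) (by simp) (by simp))
    · exact absurd (hσ.trans (up4 le_rfl hx k)) (nle 11 (by norm_num) (by simp) (by simp))
  have h4 : ln (Zl {13}) e4 ≤ A := line_le hA l4 fun σ hσ x hx h => by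
    rcases nz5 h with k | k | k | k | k
    · exact absurd (hσ.trans (up0 le_rfl hx k)) (nle 13 (by norm_num) (by simp) (by simp))
    · exact absurd (hσ.trans (up1 le_rfl hx k)) (nle 13 (by norm_num) (by simp) (by simp))
    · exact absurd (hσ.trans (up2 le_rfl hx k)) (nle 13 (by norm_num) (by simp) (by simp))
    · exact absurd (hσ.trans (up3 le_rfl hx k)) (nle 13 (by norm_num) (by simp) (by simp))
    · have k3 : x 3 = 0 := by_contra fun k =>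
        absurd (hσ.trans (up3 le_rfl hx k)) (nle 13 (by norm_num) (by simp) (by simp))
      exact mt2 (by grind) (up4 le_rfl hx k) (up5 le_rfl hx (by rwa [k3, zero_add]))
  have h5 : ln (Zl {17}) e5 ≤ A := line_le hA l5 fun σ hσ x hx h => by
    have k5 : x 3 + x 4 = 0 := by_contra fun k =>
      absurd (hσ.trans (up5 le_rfl hx k)) (nle 17 (by norm_num) (by simp) (by simp))
    rcases nz5 h with k | k | k | k | k
    · exact absurd (hσ.trans (up0 le_rfl hx k)) (nle 17 (by norm_num) (by simp) (by simp))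
    · exact absurd (hσ.trans (up1 le_rfl hx k)) (nle 17 (by norm_num) (by simp) (by simp))
    · exact absurd (hσ.trans (up2 le_rfl hx k)) (nle 17 (by norm_num) (by simp) (by simp))
    · exact mt2 (by grind) (up3 le_rfl hx k) (up4 le_rfl hx fun q => k (by linarith))
    · exact mt2 (by grind) (up3 le_rfl hx fun q => k (by linarith)) (up4 le_rfl hx k)
  have hx : ∀ a ∈ Zl {3}, (2 * a) • xx ∈ A := by
    intro a ha
    obtain ⟨C, k1, _, hA⟩ := hA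
    have hm := mid le_rfl SS_GG (TLe.of_le (le_refl (Zl {3}))) (TLe.of_le le_rfl)
    have k2 : a • xx ∈ Gt GG (Zl {3}) :=
      (hm _).1.2 ⟨AddSubgroup.mem_sup_left (AddSubgroup.mem_sup_right ⟨a, ha, rfl⟩), by simp [xx]⟩
    rw [← (k1 _ (Zl_ne _)).2] at k2
    obtain ⟨c, hc, y, hy, e⟩ := AddSubgroup.mem_sup.1 k2
    have hcA : c ∈ A := by
      rw [hA]
      exact (le_iSup₂_of_le (Zl {3}) (Zl_ne _) le_rfl : C (Zl {3}) ≤ _) hc
    obtain ⟨y0, y3, y4⟩ := (hm y).2.1 hy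
    obtain ⟨p, hp, q, hq, u, ⟨u0, u1, u2, d, hd, u3, _⟩, rfl⟩ := mem_GG y0
    have p2 : p / 2 ∈ Zl {3} := hf hp (by
      have : p / 2 = -(u 3 - d + d) := by simp [xx, ss] at y3; linarith
      rw [this]; exact neg_mem (add_mem (zm (by grind) u3) (zm (by grind) hd)))
    have e2 : (2 * a) • xx = c + c + ((u 0 + u 0 + p / 2 + q) • e0 + (u 1 + u 1 + p / 2) • e1 +
        (u 2 + u 2 + q) • e2) := by
      rw [mul_smul, ← e]
      simp only [Pi.add_apply, Pi.smul_apply, smul_eq_mul] at y3 y4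
      apply ext5 <;> simp [e0, e1, e2, xx, ss] at y3 y4 ⊢ <;> linarith
    rw [e2]
    exact add_mem (add_mem hcA hcA) (add_mem (add_mem
      (h0 ⟨_, add_mem (add_mem (add_mem u0 u0) (zm (by grind) p2)) (zm (by grind) hq), rfl⟩)
      (h1 ⟨_, add_mem (add_mem u1 u1) (zm (by grind) p2), rfl⟩)) (h2 ⟨_, add_mem (add_mem u2 u2) (zm (by grind) hq), rfl⟩))
  have h3 : ln (Zl {3}) e3 ≤ A := by
    rintro _ ⟨a, ha, rfl⟩
    obtain ⟨n, b, hb, rfl⟩ := Zl_par (by simp) ha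
    have e : (n + 2 * b) • e3 = (n : ℚ) • e4 + (n : ℚ) • e5 + (2 * (b + b)) • xx - b • e0
        - b • e1 := by
      apply ext5 <;> simp [e0, e1, e3, e4, e5, xx] <;> ring
    change (n + 2 * b) • e3 ∈ A
    rw [e]
    exact sub_mem (sub_mem (add_mem (add_mem (h4 ⟨_, Zl_int _ n, rfl⟩) (h5 ⟨_, Zl_int _ n, rfl⟩))
      (hx _ (add_mem hb hb))) (h0 ⟨_, zm (by grind) hb, rfl⟩)) (h1 ⟨_, zm (by grind) hb, rfl⟩)
  refine sup_le (SS_le h0 h1 h2 h3 h4 h5) ?_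
  rintro _ ⟨a, ha, rfl⟩
  have e : a • yy = (2 * a) • xx - a • e3 := by apply ext5 <;> simp [yy, xx, e3] <;> ring
  change a • yy ∈ A
  rw [e]
  exact sub_mem (hx a ha) (h3 ⟨a, ha, rfl⟩)

theorem three_of {u : W} (hu : u ∈ SS) (h4 : u 4 = 0) : u 3 ∈ Zl {3} := by
  obtain ⟨_, _, _, d, hd, u3, u4⟩ := hu
  rw [h4, zero_add] at u4
  simpa using add_mem u3 (zm (M := {3}) (by grind) (Zl_inf _ _ ⟨hd, u4⟩))

theorem hqG (w : W) (h : w 3 = 1 / 2) : ∀ v ∈ GG, v 4 = 0 → v 3 / w 3 ∈ Zl {3} := by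
  intro v hv h4
  obtain ⟨a, ha, b, hb, u, hu, rfl⟩ := mem_GG hv
  have h3 := three_of hu (by simpa [xx, ss] using h4)
  convert add_mem (add_mem h3 h3) ha using 1
  simp [h, xx, ss]; ring

theorem Reg_GG : (∃ A, IsReg GG A) ∧ Reg GG = RR := by
  have hx : ln (Zl {3}) xx ≤ GG := le_sup_right.trans le_sup_left
  have hs : ln (Zl {3}) ss ≤ GG := le_sup_right
  obtain ⟨A, hA, hA'⟩ := reg_exists le_rfl SS_GG xx hx (by simp [xx]) (by simp [xx])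
    (hqG _ (by simp [xx]))
  obtain ⟨B, hB, hB'⟩ := reg_exists le_rfl SS_GG (xx + ss) (by
      rintro _ ⟨c, hc, rfl⟩
      change c • (xx + ss) ∈ GG
      rw [smul_add]; exact add_mem (hx ⟨c, hc, rfl⟩) (hs ⟨c, hc, rfl⟩))
    (by simp [xx, ss]) (by simp [xx, ss]) (hqG _ (by simp [xx, ss]))
  refine ⟨⟨A, hA⟩, le_antisymm (fun v hv => ?_) (le_sInf fun A hA => RR_le hA)⟩
  obtain ⟨u, hu, _, ⟨a, ha, rfl⟩, e1⟩ := AddSubgroup.mem_sup.1 (hA' ((sInf_le hA : Reg GG ≤ A) hv))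
  obtain ⟨t, ht, _, ⟨b, hb, rfl⟩, e2⟩ := AddSubgroup.mem_sup.1 (hB' ((sInf_le hB : Reg GG ≤ B) hv))
  have k1 : u 2 = t 2 + b / 2 := by
    have := congrFun (e1.trans e2.symm) 2
    simp [xx, ss] at this; linarith
  have k2 : b / 2 ∈ Zl {3} := hf hb (by
    have : b / 2 = u 2 - t 2 := by linarith
    rw [this]; exact sub_mem (zm (by grind) hu.2.2.1) (zm (by grind) ht.2.2.1))
  have e : v = t + (b / 2) • e3 + (2 * (b / 2)) • ss + (b / 2) • yy := by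
    rw [← e2]
    apply ext5 <;> simp [xx, ss, yy, e3] <;> ring
  rw [e]
  exact add_mem (AddSubgroup.mem_sup_left (add_mem (add_mem ht (l3 ⟨_, k2, rfl⟩)) (ss2 k2)))
    (AddSubgroup.mem_sup_right ⟨_, k2, rfl⟩)

theorem RR_GG : RR ≤ GG := by
  obtain ⟨⟨A, ⟨C, h, _, hA⟩⟩, _⟩ := Reg_GG
  refine (RR_le ⟨C, h, ‹_›, hA⟩).trans ?_
  rw [hA]
  exact iSup₂_le fun τ hτ x hx => ((h τ hτ).2.le (AddSubgroup.mem_sup_left hx)).1

theorem main : ∃ (n : ℕ) (G : AddSubgroup (Fin n → ℚ)), IsButler G ∧ (∃ A, IsReg G A) ∧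
    (∃ B, IsReg (Reg G) B) ∧ Reg (Reg G) ≠ Reg G := by
  obtain ⟨B, hB, hB'⟩ := reg_exists RR_GG le_sup_left e3 (l3.trans le_sup_left) (by simp [e3])
    (by simp [e3]) (fun v hv h4 => by
      obtain ⟨u, hu, _, ⟨a, ha, rfl⟩, rfl⟩ := AddSubgroup.mem_sup.1 hv
      simpa [e3, yy] using three_of hu (by simpa [yy] using h4))
  refine ⟨5, GG, ?_, Reg_GG.1, ?_, ?_⟩
  · let K : Fin 8 → AddSubgroup W := ![ln (Zl {3, 5}) e0, ln (Zl {3, 7}) e1, ln (Zl {3, 11}) e2,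
      ln (Zl {3}) e3, ln (Zl {13}) e4, ln (Zl {17}) e5, ln (Zl {3}) xx, ln (Zl {3}) ss]
    refine ⟨8, K, fun i => ?_, le_antisymm (sup_le (sup_le (SS_le (le_iSup K 0) (le_iSup K 1)
      (le_iSup K 2) (le_iSup K 3) (le_iSup K 4) (le_iSup K 5)) (le_iSup K 6)) (le_iSup K 7))
      (iSup_le fun i => ?_)⟩
    · fin_cases i <;> exact ⟨_, fun x ⟨c, _, e⟩ => ⟨c, e.symm⟩⟩
    · fin_cases i
      exacts [l0.trans SS_GG, l1.trans SS_GG, l2.trans SS_GG, l3.trans SS_GG, l4.trans SS_GG,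
        l5.trans SS_GG, le_sup_right.trans le_sup_left, le_sup_right]
  · rw [Reg_GG.2]; exact ⟨B, hB⟩
  · rw [Reg_GG.2]
    intro h
    have h1 : yy ∈ Reg RR := by
      rw [h]; exact AddSubgroup.mem_sup_right ⟨1, Zl_one _, one_smul ℚ yy⟩
    have h2 : yy ∈ SS := sup_le le_rfl l3 (hB' ((sInf_le hB : Reg RR ≤ B) h1))
    have h3 := h2.1 2 Nat.prime_two (by simp [yy])
    simp at h3

end Pool.Agent.H.MP_9f65ab_al
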