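import Mathlib

set_option autoImplicit false

namespace Pool.Agent.H.MP_9f65ab_al

def Zl (L : Set ℕ) : AddSubgroup ℚ where
  carrier := {a | ∀ l : ℕ, l.Prime → l ∣ a.den → l ∈ L}
  zero_mem' := fun l hl h => absurd (Nat.dvd_one.1 h) hl.ne_one
  add_mem' := by
    intro a b ha hb l hl h
    rcases (Nat.Prime.dvd_mul hl).1 (h.trans (Rat.add_den_dvd a b)) with h | h
    · exact ha l hl h
    · exact hb l hl h
  neg_mem' := by
    intro a ha l hl h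
    exact ha l hl (by simpa using h)

theorem Zl_mono {L M : Set ℕ} (h : L ⊆ M) : Zl L ≤ Zl M := fun _ ha l hl hd => h (ha l hl hd)

theorem Zl_inf (L M : Set ℕ) : Zl L ⊓ Zl M ≤ Zl (L ∩ M) :=
  fun _ ha l hl hd => ⟨ha.1 l hl hd, ha.2 l hl hd⟩

theorem Zl_int (L : Set ℕ) (n : ℤ) : (n : ℚ) ∈ Zl L :=
  fun l hl h => absurd (Nat.dvd_one.1 (by simpa using h)) hl.ne_one

theorem Zl_one (L : Set ℕ) : (1 : ℚ) ∈ Zl L := by simpa using Zl_int L 1

theorem Zl_half {L : Set ℕ} {a : ℚ} (h1 : 2 * a ∈ Zl L) (h2 : a ∈ Zl {2}ᶜ) : a ∈ Zl L := by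
  intro l hl h
  have e : a = 2 * a * (1 / 2) := by ring
  have h3 := Rat.mul_den_dvd (2 * a) (1 / 2)
  rw [← e] at h3
  rcases (Nat.Prime.dvd_mul hl).1 (h.trans h3) with h4 | h4
  · exact h1 l hl h4
  · have h5 : l ∣ 2 := by simpa using h4
    exact absurd ((Nat.prime_dvd_prime_iff_eq hl Nat.prime_two).1 h5) (h2 l hl h)

theorem Zl_div {L : Set ℕ} {a : ℚ} (ha : a ∈ Zl L) (m : ℤ) : (m : ℚ) / a.den ∈ Zl L := by
  intro l hl h
  refine ha l hl (h.trans ?_)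
  have := Rat.den_dvd m a.den
  rw [Rat.divInt_eq_div] at this
  exact_mod_cast this

theorem Zl_par {L : Set ℕ} (h2 : 2 ∉ L) {a : ℚ} (ha : a ∈ Zl L) :
    ∃ (n : ℤ) (b : ℚ), b ∈ Zl L ∧ a = n + 2 * b := by
  have hd : ¬ 2 ∣ a.den := fun h => h2 (ha 2 Nat.prime_two h)
  have h0 : (a.den : ℚ) ≠ 0 := by exact_mod_cast a.den_nz
  rcases Int.even_or_odd a.num with ⟨m, hm⟩ | ⟨m, hm⟩
  · refine ⟨0, m / a.den, Zl_div ha m, ?_⟩
    have : (a.num : ℚ) = m + m := by exact_mod_cast hm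
    have h4 : a * a.den = a.num := Rat.mul_den_eq_num a
    field_simp
    push_cast
    linear_combination h4 + this
  · obtain ⟨k, hk⟩ : ∃ k : ℤ, (a.den : ℤ) = 2 * k + 1 := ⟨a.den / 2, by omega⟩
    refine ⟨1, ((m - k : ℤ) : ℚ) / a.den, Zl_div ha _, ?_⟩
    have h1 : (a.num : ℚ) = 2 * m + 1 := by exact_mod_cast hm
    have h3 : (a.den : ℚ) = 2 * k + 1 := by exact_mod_cast hk
    have h4 : a * a.den = a.num := Rat.mul_den_eq_num a
    field_simp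
    push_cast
    linear_combination h4 + h1 - h3

theorem pow_dvd_num {l : ℕ} (hl : l.Prime) {c : ℚ} (k : ℕ)
    (h : c * (1 / (l : ℚ) ^ k) ∈ Zl {l}ᶜ) : (l : ℤ) ^ k ∣ c.num := by
  set u := c * (1 / (l : ℚ) ^ k) with hu
  have hl0 : (l : ℚ) ≠ 0 := by exact_mod_cast hl.ne_zero
  have hd : ¬ l ∣ u.den := fun hd => h l hl hd rfl
  have e1 : c = u * (l : ℚ) ^ k := by rw [hu]; field_simp
  have h4 : u * u.den = u.num := Rat.mul_den_eq_num u
  have h5 : c * c.den = c.num := Rat.mul_den_eq_num c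
  have e2 : (c.num : ℚ) * u.den = (l : ℚ) ^ k * (u.num * c.den) := by
    rw [← h4, ← h5]; linear_combination (c.den * u.den : ℚ) * e1
  have e3 : c.num * u.den = (l : ℤ) ^ k * (u.num * c.den) := by exact_mod_cast e2
  have hc : IsCoprime ((l : ℤ) ^ k) (u.den : ℤ) :=
    (Nat.isCoprime_iff_coprime.2 ((Nat.Prime.coprime_iff_not_dvd hl).2 hd)).pow_left
  exact hc.dvd_of_dvd_mul_right ⟨_, e3⟩

theorem inv_pow_mem {l : ℕ} (hl : l.Prime) {L : Set ℕ} (h : l ∈ L) (k : ℕ) :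
    1 / (l : ℚ) ^ k ∈ Zl L := by
  intro m hm hd
  have e : (1 / (l : ℚ) ^ k).den = l ^ k := by
    have := Rat.inv_natCast_den_of_pos (pow_pos hl.pos k)
    simpa using this
  rw [e] at hd
  rwa [(Nat.prime_dvd_prime_iff_eq hm hl).1 (hm.dvd_of_dvd_pow hd)]

theorem not_scale {l : ℕ} (hl : l.Prime) {L : Set ℕ} (h : l ∈ L) (c : ℚ) (hc : c ≠ 0) :
    ¬ ∀ t ∈ Zl L, c * t ∈ Zl {l}ᶜ := by
  intro h1
  have h2 := pow_dvd_num hl c.num.natAbs (h1 _ (inv_pow_mem hl h _))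
  have h3 : l ^ c.num.natAbs ∣ c.num.natAbs := by
    have := Int.natAbs_dvd_natAbs.2 h2
    simpa using this
  have h4 := Nat.le_of_dvd (Int.natAbs_pos.2 (Rat.num_ne_zero.2 hc)) h3
  have h5 := Nat.lt_pow_self (n := c.num.natAbs) hl.one_lt
  omega

theorem bez (K : AddSubgroup ℚ) {u a : ℚ} {n : ℤ} (hu : u ∈ K) (hn : (n : ℚ) ∈ K)
    (h : a.den ∣ u.den) : n * a ∈ K := by
  obtain ⟨d, hd⟩ := h
  have hc : IsCoprime u.num (u.den : ℤ) := Int.isCoprime_iff_gcd_eq_one.2 u.reduced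
  obtain ⟨x, y, hxy⟩ := hc
  have h1 : (x : ℚ) * u.num + y * u.den = 1 := by exact_mod_cast hxy
  have h2 : (u.den : ℚ) = a.den * d := by exact_mod_cast hd
  have h4 : u * u.den = u.num := Rat.mul_den_eq_num u
  have h5 : a * a.den = a.num := Rat.mul_den_eq_num a
  have h0 : (u.den : ℚ) ≠ 0 := by exact_mod_cast u.den_nz
  have e : n * a = (n * x * a.num * d : ℤ) • u + (y * a.num * d : ℤ) • (n : ℚ) := by
    simp only [zsmul_eq_mul]
    push_cast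
    apply mul_right_cancel₀ h0
    linear_combination (n * a) * h2 + (n * d) * h5 - (n * a.num * d) * h1
      - (n * x * a.num * d) * h4
  rw [e]
  exact add_mem (zsmul_mem hu _) (zsmul_mem hn _)

theorem scale_three (τ : AddSubgroup ℚ) (hτ : τ ≠ ⊥) (c : ℚ) (hc : c ≠ 0)
    (h1 : ∀ t ∈ τ, c * t ∈ Zl {3}) (h2 : ∀ d : ℚ, d ≠ 0 → ¬ ∀ t ∈ τ, d * t ∈ Zl {3}ᶜ) :
    ∃ d : ℚ, d ≠ 0 ∧ ∀ a ∈ Zl {3}, d * a ∈ τ := by
  obtain ⟨⟨t, ht⟩, ht0⟩ := AddSubgroup.ne_bot_iff_exists_ne_zero.1 hτ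
  have ht1 : t ≠ 0 := fun h => ht0 (Subtype.ext h)
  let K := τ.map (AddMonoidHom.mulLeft c)
  have hn : ((c * t).num : ℚ) ∈ K := by
    rw [← Rat.mul_den_eq_num, mul_comm, ← nsmul_eq_mul]
    exact nsmul_mem (show c * t ∈ K from ⟨t, ht, rfl⟩) _
  have hp : ∀ a ∈ Zl {3}, ∃ k, a.den = 3 ^ k := fun a ha =>
    ⟨_, Nat.eq_prime_pow_of_unique_prime_dvd a.den_nz fun hl hd => ha _ hl hd⟩
  refine ⟨(c * t).num / c, div_ne_zero (by exact_mod_cast Rat.num_ne_zero.2 (mul_ne_zero hc ht1))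
    hc, fun a ha => ?_⟩
  obtain ⟨k, hk⟩ := hp a ha
  have h3 := h2 (3 ^ k * c) (by positivity)
  push Not at h3
  obtain ⟨s, hs, hs'⟩ := h3
  obtain ⟨j, hj⟩ := hp _ (h1 s hs)
  have hjk : k ≤ j := by
    by_contra hlt
    apply hs'
    obtain ⟨i, rfl⟩ := Nat.exists_eq_add_of_le (not_le.1 hlt).le
    have h4 : c * s * (c * s).den = (c * s).num := Rat.mul_den_eq_num _
    have e : 3 ^ (j + i) * c * s = ((3 ^ i * (c * s).num : ℤ) : ℚ) := by
      push_cast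
      rw [← h4, hj]; push_cast; ring
    rw [e]; exact Zl_int _ _
  obtain ⟨r, hr, e⟩ := bez K (a := a) (show c * s ∈ K from ⟨s, hs, rfl⟩) hn
    (by rw [hk, hj]; exact pow_dvd_pow 3 hjk)
  have e' : c * r = (c * t).num * a := e
  have e2 : (c * t).num / c * a = r := by field_simp; linear_combination -e'
  rw [e2]; exact hr

end Pool.Agent.H.MP_9f65ab_al
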